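import Pool.Agent.Helper37.PT.Loc

/-!
# Plan T, module T-LG: the local gain lemma
-/

set_option autoImplicit false

open Finset Polynomial

namespace Pool.Agent.Helper37.PT

open Pool.Agent.Helper33 Pool.Agent.Helper33.PS Pool.Agent.Helper98.PS Pool.Agent.Helper55.RD

section conv

variable {K : Type*} [Field K]

/-- convergence of a sequence for a discrete valuation -/
def Conv (v : DV K) (y : ℕ → K) (l : K) : Prop := ∀ c : ℝ, ∃ N₀, ∀ N ≥ N₀, v.ge c (y N - l)

variable {v : DV K} {y y' : ℕ → K} {l l' : K}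

lemma conv_const (l : K) : Conv v (fun _ => l) l := fun c => ⟨0, fun N _ => by
  rw [sub_self]; exact DV.ge_zero _⟩

lemma Conv.add (h : Conv v y l) (h' : Conv v y' l') : Conv v (fun N => y N + y' N) (l + l') := by
  intro c
  obtain ⟨N₁, h1⟩ := h c
  obtain ⟨N₂, h2⟩ := h' c
  refine ⟨max N₁ N₂, fun N hN => ?_⟩
  have e : y N + y' N - (l + l') = (y N - l) + (y' N - l') := by ring
  rw [e]
  exact DV.ge_add (h1 N (le_trans (le_max_left _ _) hN)) (h2 N (le_trans (le_max_right _ _) hN))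

lemma conv_of_ge (h : ∀ N : ℕ, v.ge N (y N - l)) : Conv v y l := by
  intro c
  obtain ⟨N₀, hN₀⟩ := exists_nat_ge c
  refine ⟨N₀, fun N hN => DV.ge_mono (h N) (hN₀.trans ?_)⟩
  exact_mod_cast hN

lemma Conv.const_mul (h : Conv v y l) (a : K) : Conv v (fun N => a * y N) (a * l) := by
  intro c
  obtain ⟨N₁, h1⟩ := h (c - v.o a)
  refine ⟨N₁, fun N hN => ?_⟩
  rw [← mul_sub]
  refine DV.ge_mono (DV.ge_mul (DV.ge_self a) (h1 N hN)) (le_of_eq ?_)
  ring

lemma Conv.mul (h : Conv v y l) (h' : Conv v y' l') : Conv v (fun N => y N * y' N) (l * l') := by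
  intro c
  obtain ⟨N₁, h1⟩ := h (max c 0)
  obtain ⟨N₂, h2⟩ := h' (max c 0)
  obtain ⟨N₃, h3⟩ := h.const_mul l' c
  obtain ⟨N₄, h4⟩ := h'.const_mul l c
  refine ⟨max (max N₁ N₂) (max N₃ N₄), fun N hN => ?_⟩
  have hN1 := h1 N (le_trans (le_trans (le_max_left _ _) (le_max_left _ _)) hN)
  have hN2 := h2 N (le_trans (le_trans (le_max_right _ _) (le_max_left _ _)) hN)
  have hN3 := h3 N (le_trans (le_trans (le_max_left _ _) (le_max_right _ _)) hN)
  have hN4 := h4 N (le_trans (le_trans (le_max_right _ _) (le_max_right _ _)) hN)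
  have e : y N * y' N - l * l' = (y N - l) * (y' N - l') + ((l' * y N - l' * l) +
      (l * y' N - l * l')) := by ring
  rw [e]
  refine DV.ge_add (DV.ge_mono (DV.ge_mul hN1 hN2) ?_) (DV.ge_add hN3 hN4)
  have m1 := le_max_left c 0
  have m2 := le_max_right c 0
  linarith

lemma Conv.pow (h : Conv v y l) (n : ℕ) : Conv v (fun N => y N ^ n) (l ^ n) := by
  induction n with
  | zero => simpa using conv_const (v := v) (1 : K)
  | succ n ih => simp only [pow_succ]; exact ih.mul h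

lemma Conv.sum {ι : Type*} (s : Finset ι) {f : ι → ℕ → K} {g : ι → K}
    (h : ∀ i ∈ s, Conv v (f i) (g i)) : Conv v (fun N => ∑ i ∈ s, f i N) (∑ i ∈ s, g i) := by
  classical
  induction s using Finset.induction_on with
  | empty => simpa using conv_const (v := v) (0 : K)
  | insert a s ha ih =>
    simp only [sum_insert ha]
    exact (h a (mem_insert_self a s)).add (ih fun i hi => h i (mem_insert_of_mem hi))

lemma Conv.prod {ι : Type*} (s : Finset ι) {f : ι → ℕ → K} {g : ι → K}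
    (h : ∀ i ∈ s, Conv v (f i) (g i)) : Conv v (fun N => ∏ i ∈ s, f i N) (∏ i ∈ s, g i) := by
  classical
  induction s using Finset.induction_on with
  | empty => simpa using conv_const (v := v) (1 : K)
  | insert a s ha ih =>
    simp only [prod_insert ha]
    exact (h a (mem_insert_self a s)).mul (ih fun i hi => h i (mem_insert_of_mem hi))

lemma Conv.det {n : Type*} [Fintype n] [DecidableEq n] {M : ℕ → Matrix n n K} {L : Matrix n n K}
    (h : ∀ i j, Conv v (fun N => M N i j) (L i j)) : Conv v (fun N => (M N).det) L.det := by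
  simp only [Matrix.det_apply']
  exact Conv.sum _ fun σ _ => (Conv.prod _ fun i _ => h (σ i) i).const_mul _

lemma Conv.map {E : Type*} [Field E] {w : DV E} {φ : K →+* E} (hφ : VHom φ v w) (h : Conv v y l) :
    Conv w (fun N => φ (y N)) (φ l) := by
  intro c
  obtain ⟨N₁, h1⟩ := h (max c 0)
  refine ⟨N₁, fun N hN => ?_⟩
  rw [← map_sub]
  by_cases h0 : y N - l = 0
  · rw [h0, map_zero]; exact DV.ge_zero _
  right
  have h2 := DV.ge_le (h1 N hN) h0
  rw [hφ.spec _ h0]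
  push_cast
  have h3 : (1 : ℝ) ≤ hφ.r := by exact_mod_cast hφ.r_pos
  have m1 := le_max_left c 0
  have m2 := le_max_right c 0
  nlinarith

lemma Conv.ge_of_ge (h : Conv v y l) {c : ℝ} (hl : v.ge c l) : ∃ N₀, ∀ N ≥ N₀, v.ge c (y N) := by
  obtain ⟨N₁, h1⟩ := h c
  refine ⟨N₁, fun N hN => ?_⟩
  have e : y N = (y N - l) + l := by ring
  rw [e]
  exact DV.ge_add (h1 N hN) hl

lemma Conv.ge_lim (h : Conv v y l) {c : ℝ} (hy : ∃ N₀, ∀ N ≥ N₀, v.ge c (y N)) : v.ge c l := by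
  obtain ⟨N₁, h1⟩ := h c
  obtain ⟨N₂, h2⟩ := hy
  have e : l = y (max N₁ N₂) - (y (max N₁ N₂) - l) := by ring
  rw [e]
  exact DV.ge_sub (h2 _ (le_max_right _ _)) (h1 _ (le_max_left _ _))

end conv

section approx

variable {k K : Type*} [Field k] [Field K] [Algebra k K] {v : DV K} (hv : ResK k v) {π : K}
  (hπ0 : π ≠ 0) (hπ : v.o π = 1)

/-- evaluation of polynomials at the uniformiser -/
noncomputable def ev0 (k : Type*) {K : Type*} [Field k] [Field K] [Algebra k K] (π : K) :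
    k[X] →+* K := eval₂RingHom (algebraMap k K) π

lemma ev0_C (a : k) : ev0 k π (C a) = algebraMap k K a := by
  rw [ev0, coe_eval₂RingHom, eval₂_C]

lemma ev0_X : ev0 k π X = π := by
  rw [ev0, coe_eval₂RingHom, eval₂_X]

include hv in
lemma ge_const (a : k) : v.ge 0 (algebraMap k K a) := by
  by_cases ha : a = 0
  · rw [ha, map_zero]; exact DV.ge_zero _
  right
  rw [hv.const a ha]; norm_num

include hv in
lemma const_of_ge (a : k) (h : v.ge 1 (algebraMap k K a)) : a = 0 := by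
  by_contra ha
  have h1 := DV.ge_le h (by rw [Ne, map_eq_zero]; exact ha)
  rw [hv.const a ha] at h1
  norm_num at h1

include hv hπ0 hπ in
lemma X_pow_dvd_ev0 (s : ℕ) (f : k[X]) (hf : v.ge s (ev0 k π f)) : X ^ s ∣ f :=
  X_pow_dvd_of_ge v (ev0 k π) (fun a => by rw [ev0_C]; exact ge_const hv a)
    (fun a ha => const_of_ge hv a (by rwa [ev0_C] at ha)) (by rw [ev0_X]; exact hπ0)
    (by rw [ev0_X]; exact hπ) s f hf

include hv hπ0 hπ in
lemma ev0_injective : Function.Injective (ev0 k π) :=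
  poly_injective v (ev0 k π) (fun a => by rw [ev0_C]; exact ge_const hv a)
    (fun a ha => const_of_ge hv a (by rwa [ev0_C] at ha)) (by rw [ev0_X]; exact hπ0)
    (by rw [ev0_X]; exact hπ)

include hv hπ0 hπ in
lemma ge_ev0 (f : k[X]) : v.ge 0 (ev0 k π f) :=
  ge_poly v (ev0 k π) (fun a => by rw [ev0_C]; exact ge_const hv a)
    (by rw [ev0_X]; right; rw [hπ]; norm_num) f

include hv hπ0 hπ in
/-- approximation of integral elements -/
lemma approx_int (u : K) (hu : v.ge 0 u) (N : ℕ) : ∃ q : k[X], v.ge N (ev0 k π q - u) := by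
  induction N with
  | zero =>
    refine ⟨0, ?_⟩
    rw [map_zero, zero_sub, Nat.cast_zero]
    exact DV.ge_neg hu
  | succ N ih =>
    obtain ⟨q, hq⟩ := ih
    have hπN : π ^ N ≠ 0 := pow_ne_zero _ hπ0
    have hoN : v.o (π ^ N) = N := by rw [v.o_pow _ hπ0, hπ, mul_one]
    have h1 : v.ge 0 ((ev0 k π q - u) * (π ^ N)⁻¹) := by
      have := DV.ge_mul hq (DV.ge_inv (c := N) hπN (by rw [hoN]; norm_num))
      rwa [add_neg_cancel] at this
    obtain ⟨c, hc⟩ := hv.res _ h1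
    refine ⟨q - C c * X ^ N, ?_⟩
    have e : ev0 k π (q - C c * X ^ N) - u =
        (((ev0 k π q - u) * (π ^ N)⁻¹) - algebraMap k K c) * π ^ N := by
      rw [map_sub, map_mul, map_pow, ev0_C, ev0_X]
      field_simp
      ring
    rw [e]
    refine DV.ge_mono (DV.ge_mul hc (DV.ge_self (π ^ N))) (le_of_eq ?_)
    rw [hoN]
    push_cast
    ring

/-- evaluation of rational functions at the uniformiser -/
noncomputable def ev : RF k →+* K :=
  IsFractionRing.lift (A := k[X]) (g := ev0 k π) (ev0_injective hv hπ0 hπ)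

lemma ev_alg (f : k[X]) : ev hv hπ0 hπ (algebraMap k[X] (RF k) f) = ev0 k π f := by
  rw [ev, IsFractionRing.lift_algebraMap]

/-- Laurent polynomials -/
def IsLP (y : RF k) : Prop :=
  ∃ (q : k[X]) (s : ℕ), algebraMap k[X] (RF k) X ^ s * y = algebraMap k[X] (RF k) q

lemma IsLP.add {y y' : RF k} (h : IsLP y) (h' : IsLP y') : IsLP (y + y') := by
  obtain ⟨q, s, hq⟩ := h
  obtain ⟨q', s', hq'⟩ := h'
  refine ⟨X ^ s' * q + X ^ s * q', s + s', ?_⟩
  rw [map_add, map_mul, map_mul, map_pow, map_pow, ← hq, ← hq']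
  ring

lemma IsLP.mul {y y' : RF k} (h : IsLP y) (h' : IsLP y') : IsLP (y * y') := by
  obtain ⟨q, s, hq⟩ := h
  obtain ⟨q', s', hq'⟩ := h'
  refine ⟨q * q', s + s', ?_⟩
  rw [map_mul, ← hq, ← hq']
  ring

lemma isLP_one : IsLP (1 : RF k) := ⟨1, 0, by simp⟩

lemma isLP_zero : IsLP (0 : RF k) := ⟨0, 0, by simp⟩

lemma IsLP.pow {y : RF k} (h : IsLP y) (n : ℕ) : IsLP (y ^ n) := by
  induction n with
  | zero => rw [pow_zero]; exact isLP_one
  | succ n ih => rw [pow_succ]; exact ih.mul h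

lemma IsLP.sum {ι : Type*} (s : Finset ι) {f : ι → RF k} (h : ∀ i ∈ s, IsLP (f i)) :
    IsLP (∑ i ∈ s, f i) := by
  classical
  induction s using Finset.induction_on with
  | empty => rw [sum_empty]; exact isLP_zero
  | insert a s ha ih =>
    rw [sum_insert ha]
    exact (h a (mem_insert_self a s)).add (ih fun i hi => h i (mem_insert_of_mem hi))

lemma algX_ne : algebraMap k[X] (RF k) X ≠ 0 := by
  intro h
  exact X_ne_zero ((IsFractionRing.injective k[X] (RF k)) (by rw [h, map_zero]))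

lemma IsLP.int {y : RF k} (h : IsLP y) (hy : v.ge 0 (ev hv hπ0 hπ y)) :
    ∃ U : k[X], algebraMap k[X] (RF k) U = y := by
  obtain ⟨q, s, hq⟩ := h
  have h1 : v.ge s (ev0 k π q) := by
    rw [← ev_alg hv hπ0 hπ, ← hq, map_mul, map_pow, ev_alg, ev0_X]
    have hs : v.o (π ^ s) = s := by rw [v.o_pow _ hπ0, hπ, mul_one]
    have := DV.ge_mul (DV.ge_self (v := v) (π ^ s)) hy
    rw [add_zero, hs] at this
    exact_mod_cast this
  obtain ⟨U, hU⟩ := X_pow_dvd_ev0 hv hπ0 hπ s q h1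
  refine ⟨U, ?_⟩
  rw [hU, map_mul, map_pow] at hq
  exact (mul_left_cancel₀ (pow_ne_zero _ algX_ne) hq).symm

/-- approximation of arbitrary elements -/
lemma approx (u : K) (N : ℕ) : ∃ y : RF k, IsLP y ∧ v.ge N (ev hv hπ0 hπ y - u) := by
  set s : ℕ := (v.o u).natAbs with hs
  have hπs : π ^ s ≠ 0 := pow_ne_zero _ hπ0
  have hos : v.o (π ^ s) = s := by rw [v.o_pow _ hπ0, hπ, mul_one]
  have h1 : v.ge 0 (π ^ s * u) := by
    refine DV.ge_mono (DV.ge_mul (DV.ge_self (v := v) (π ^ s)) (DV.ge_self u)) ?_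
    rw [hos]
    have : 0 ≤ (s : ℤ) + v.o u := by omega
    exact_mod_cast this
  obtain ⟨q, hq⟩ := approx_int hv hπ0 hπ _ h1 (N + s)
  refine ⟨algebraMap k[X] (RF k) q / algebraMap k[X] (RF k) X ^ s, ⟨q, s, ?_⟩, ?_⟩
  · rw [mul_div_cancel₀ _ (pow_ne_zero _ algX_ne)]
  · rw [map_div₀, map_pow, ev_alg, ev_alg, ev0_X]
    have e : ev0 k π q / π ^ s - u = (ev0 k π q - π ^ s * u) * (π ^ s)⁻¹ := by
      field_simp
    rw [e]
    refine DV.ge_mono (DV.ge_mul hq (DV.ge_inv (c := s) hπs (by rw [hos]; norm_num))) (le_of_eq ?_)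
    push_cast
    ring

end approx

section main

variable {k K E : Type*} [Field k] [Field K] [Field E] [Algebra k K] [Algebra k E] {v : DV K}
  {w : DV E} {φ ψ : K →+* E}

/-- the local gain lemma for integral data -/
lemma lg_int (hv : ResK k v) (hw : ResK k w) (hφk : ∀ c : k, φ (algebraMap k K c) = algebraMap k E c)
    (hψk : ∀ c : k, ψ (algebraMap k K c) = algebraMap k E c) (hφ : VHom φ v w) (hψ : VHom ψ v w)
    {π : K} (hπ0 : π ≠ 0) (hπ : v.o π = 1) {c : ℝ} (hc0 : 0 ≤ c) (hc : w.ge c (ψ π - φ π)) (m : ℕ)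
    (ρ x : Fin m × Fin m → K) (p : Fin m → Fin m → K)
    (hint : ∀ a j, v.ge 0 (ρ j * ∑ t : Fin m, p a t * x j ^ (t : ℕ))) :
    w.ge (c * gsq m) (Matrix.of fun j (ab : Fin m × Fin m) =>
      φ (ρ j * ∑ t : Fin m, p ab.1 t * x j ^ (t : ℕ)) *
        ψ (ρ j * ∑ t : Fin m, p ab.2 t * x j ^ (t : ℕ))).det := by
  choose ap hap1 hap2 using fun (u : K) (N : ℕ) => approx hv hπ0 hπ u N
  have hap : ∀ u, Conv v (fun N => ev hv hπ0 hπ (ap u N)) u := fun u => conv_of_ge (hap2 u)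
  set u' : ℕ → Fin m → Fin m × Fin m → RF k := fun N a j =>
    ap (ρ j) N * ∑ t : Fin m, ap (p a t) N * ap (x j) N ^ (t : ℕ) with hu'
  have hLP : ∀ N a j, IsLP (u' N a j) := fun N a j =>
    (hap1 _ _).mul (IsLP.sum _ fun t _ => (hap1 _ _).mul ((hap1 _ _).pow _))
  have hconv : ∀ a j, Conv v (fun N => ev hv hπ0 hπ (u' N a j))
      (ρ j * ∑ t : Fin m, p a t * x j ^ (t : ℕ)) := by
    intro a j
    simp only [hu', map_mul, map_sum, map_pow]
    exact (hap _).mul (Conv.sum _ fun t _ => (hap _).mul ((hap _).pow _))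
  have hdet : Conv w (fun N => (Matrix.of fun j (ab : Fin m × Fin m) =>
      φ (ev hv hπ0 hπ (u' N ab.1 j)) * ψ (ev hv hπ0 hπ (u' N ab.2 j))).det)
      (Matrix.of fun j (ab : Fin m × Fin m) =>
      φ (ρ j * ∑ t : Fin m, p ab.1 t * x j ^ (t : ℕ)) *
        ψ (ρ j * ∑ t : Fin m, p ab.2 t * x j ^ (t : ℕ))).det :=
    Conv.det fun j ab => ((hconv ab.1 j).map hφ).mul ((hconv ab.2 j).map hψ)
  apply hdet.ge_lim
  choose N₀ hN₀ using fun (aj : Fin m × (Fin m × Fin m)) => (hconv aj.1 aj.2).ge_of_ge (hint aj.1 aj.2)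
  refine ⟨univ.sup N₀, fun N hN => ?_⟩
  have hU : ∀ a j, ∃ U : k[X], algebraMap k[X] (RF k) U = u' N a j := fun a j =>
    (hLP N a j).int hv hπ0 hπ (hN₀ (a, j) N (le_trans (le_sup (f := N₀) (mem_univ (a, j))) hN))
  choose U hU using hU
  have h1 := lg_poly (algebraMap k E) w (fun c => ge_const hw c) (τ := φ π) (τ' := ψ π)
    (hφ.ge_zero (by right; rw [hπ]; norm_num)) hc0 hc m U (fun j => ap (ρ j) N)
    (fun j => ap (x j) N) (fun a t => ap (p a t) N) hU
  have e1 : ∀ f : k[X], f.eval₂ (algebraMap k E) (φ π) = φ (ev0 k π f) := by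
    intro f
    have : φ.comp (ev0 k π) = eval₂RingHom (algebraMap k E) (φ π) := by
      apply Polynomial.ringHom_ext
      · intro a
        rw [RingHom.comp_apply, ev0_C, hφk, coe_eval₂RingHom, eval₂_C]
      · rw [RingHom.comp_apply, ev0_X, coe_eval₂RingHom, eval₂_X]
    rw [← RingHom.comp_apply, this, coe_eval₂RingHom]
  have e2 : ∀ f : k[X], f.eval₂ (algebraMap k E) (ψ π) = ψ (ev0 k π f) := by
    intro f
    have : ψ.comp (ev0 k π) = eval₂RingHom (algebraMap k E) (ψ π) := by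
      apply Polynomial.ringHom_ext
      · intro a
        rw [RingHom.comp_apply, ev0_C, hψk, coe_eval₂RingHom, eval₂_C]
      · rw [RingHom.comp_apply, ev0_X, coe_eval₂RingHom, eval₂_X]
    rw [← RingHom.comp_apply, this, coe_eval₂RingHom]
  have e3 : (Matrix.of fun j (ab : Fin m × Fin m) =>
      (U ab.1 j).eval₂ (algebraMap k E) (φ π) * (U ab.2 j).eval₂ (algebraMap k E) (ψ π)) =
      (Matrix.of fun j (ab : Fin m × Fin m) =>
      φ (ev hv hπ0 hπ (u' N ab.1 j)) * ψ (ev hv hπ0 hπ (u' N ab.2 j))) := by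
    ext j ab
    rw [Matrix.of_apply, Matrix.of_apply, e1, e2, ← ev_alg hv hπ0 hπ, ← ev_alg hv hπ0 hπ, hU, hU]
  rw [e3] at h1
  exact h1

/-- **the local gain lemma** -/
theorem lg (hv : ResK k v) (hw : ResK k w) (hφk : ∀ c : k, φ (algebraMap k K c) = algebraMap k E c)
    (hψk : ∀ c : k, ψ (algebraMap k K c) = algebraMap k E c) (hφ : VHom φ v w) (hψ : VHom ψ v w)
    (hr : hφ.r = hψ.r) {π : K} (hπ0 : π ≠ 0) (hπ : v.o π = 1) {c : ℝ} (hc0 : 0 ≤ c)
    (hc : w.ge c (ψ π - φ π)) (m : ℕ) (ρ x : Fin m × Fin m → K) (p : Fin m → Fin m → K)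
    (B : Fin m × Fin m → ℕ)
    (hB : ∀ a j, v.ge (-(B j : ℝ)) (ρ j * ∑ t : Fin m, p a t * x j ^ (t : ℕ))) :
    w.ge (c * gsq m - 2 * hφ.r * ∑ j, (B j : ℝ)) (Matrix.of fun j (ab : Fin m × Fin m) =>
      φ (ρ j * ∑ t : Fin m, p ab.1 t * x j ^ (t : ℕ)) *
        ψ (ρ j * ∑ t : Fin m, p ab.2 t * x j ^ (t : ℕ))).det := by
  have h1 := lg_int hv hw hφk hψk hφ hψ hπ0 hπ hc0 hc m (fun j => π ^ (B j) * ρ j) x p (by
    intro a j
    have := DV.ge_mul (DV.ge_self (v := v) (π ^ (B j))) (hB a j)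
    rw [v.o_pow _ hπ0, hπ, mul_one] at this
    rw [mul_assoc]
    refine DV.ge_mono this (le_of_eq ?_)
    push_cast
    ring)
  have e : (Matrix.of fun j (ab : Fin m × Fin m) =>
      φ (π ^ (B j) * ρ j * ∑ t : Fin m, p ab.1 t * x j ^ (t : ℕ)) *
        ψ (π ^ (B j) * ρ j * ∑ t : Fin m, p ab.2 t * x j ^ (t : ℕ))).det =
      (∏ j, (φ π * ψ π) ^ (B j)) * (Matrix.of fun j (ab : Fin m × Fin m) =>
      φ (ρ j * ∑ t : Fin m, p ab.1 t * x j ^ (t : ℕ)) *
        ψ (ρ j * ∑ t : Fin m, p ab.2 t * x j ^ (t : ℕ))).det := by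
    rw [← Matrix.det_mul_column]
    congr 1
    ext j ab
    rw [Matrix.of_apply, Matrix.of_apply, Matrix.of_apply]
    simp only [map_mul, map_pow, mul_pow]
    ring
  rw [e] at h1
  have hφ0 : φ π ≠ 0 := by rw [Ne, map_eq_zero]; exact hπ0
  have hψ0 : ψ π ≠ 0 := by rw [Ne, map_eq_zero]; exact hπ0
  have hP0 : ∀ j ∈ (univ : Finset (Fin m × Fin m)), (φ π * ψ π) ^ (B j) ≠ 0 := fun j _ =>
    pow_ne_zero _ (mul_ne_zero hφ0 hψ0)
  have ho : w.o (∏ j, (φ π * ψ π) ^ (B j)) = 2 * hφ.r * ∑ j, (B j : ℤ) := by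
    rw [w.o_prod _ _ hP0, mul_sum]
    refine sum_congr rfl fun j _ => ?_
    rw [w.o_pow _ (mul_ne_zero hφ0 hψ0), w.mul _ _ hφ0 hψ0, hφ.spec _ hπ0, hψ.spec _ hπ0, hπ, ← hr]
    ring
  have hPne := prod_ne_zero_iff.mpr hP0
  by_cases hD : (Matrix.of fun j (ab : Fin m × Fin m) =>
      φ (ρ j * ∑ t : Fin m, p ab.1 t * x j ^ (t : ℕ)) *
        ψ (ρ j * ∑ t : Fin m, p ab.2 t * x j ^ (t : ℕ))).det = 0
  · rw [hD]; exact DV.ge_zero _
  right
  have h2 := DV.ge_le h1 (mul_ne_zero hPne hD)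
  rw [w.mul _ _ hPne hD, ho] at h2
  push_cast at h2
  linarith

end main

end Pool.Agent.Helper37.PT
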