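import Pool.Agent.Helper98.PS.M5

/-!
# Plan T, module T-LG: the local gain lemma, polynomial version
-/

set_option autoImplicit false

open Finset Polynomial

namespace Pool.Agent.Helper37.PT

open Pool.Agent.Helper33 Pool.Agent.Helper98.PS Pool.Agent.Helper55.RD

section general

variable {R F : Type*} [CommRing R] [Field F] (v : DV F) (γ : R[X] →+* F)

/-- integrality of the image of a polynomial ring -/
lemma ge_poly (h0 : ∀ a : R, v.ge 0 (γ (C a))) (hX : v.ge 0 (γ X)) (f : R[X]) : v.ge 0 (γ f) := by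
  induction f using Polynomial.induction_on' with
  | add p q hp hq => rw [map_add]; exact DV.ge_add hp hq
  | monomial n a =>
    rw [← C_mul_X_pow_eq_monomial, map_mul, map_pow]
    have := DV.ge_mul (h0 a) (DV.ge_pow hX n)
    simpa using this

/-- congruence of two maps -/
lemma ge_poly_sub {α β : R[X] →+* F} (hα : ∀ f, v.ge 0 (α f)) (hβ : ∀ f, v.ge 0 (β f)) {c : ℝ}
    (hC : ∀ a, α (C a) = β (C a)) (hX : v.ge c (β X - α X)) (f : R[X]) : v.ge c (β f - α f) := by
  have hmul : ∀ f g, v.ge c (β f - α f) → v.ge c (β g - α g) → v.ge c (β (f * g) - α (f * g)) := by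
    intro f g hf hg
    have e : β (f * g) - α (f * g) = (β f - α f) * β g + α f * (β g - α g) := by
      rw [map_mul, map_mul]; ring
    rw [e]
    have h1 := DV.ge_mul hf (hβ g)
    have h2 := DV.ge_mul (hα f) hg
    rw [add_zero] at h1
    rw [zero_add] at h2
    exact DV.ge_add h1 h2
  have hCC : ∀ a, v.ge c (β (C a) - α (C a)) := by
    intro a
    rw [hC, sub_self]
    exact DV.ge_zero _
  induction f using Polynomial.induction_on with
  | C a => exact hCC a
  | add p q hp hq =>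
    have e : β (p + q) - α (p + q) = (β p - α p) + (β q - α q) := by
      rw [map_add, map_add]; ring
    rw [e]; exact DV.ge_add hp hq
  | monomial n a h =>
    rw [pow_succ, ← mul_assoc]
    exact hmul _ _ h hX

/-- divisibility from the order -/
lemma X_pow_dvd_of_ge (h0 : ∀ a : R, v.ge 0 (γ (C a))) (h1 : ∀ a : R, v.ge 1 (γ (C a)) → a = 0)
    (hX0 : γ X ≠ 0) (hX : v.o (γ X) = 1) (s : ℕ) (f : R[X]) (hf : v.ge s (γ f)) : X ^ s ∣ f := by
  have hX1 : v.ge 1 (γ X) := Or.inr (by rw [hX]; norm_num)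
  have hall := ge_poly v γ h0 (DV.ge_mono hX1 zero_le_one)
  induction s with
  | zero => simp
  | succ s ih =>
    obtain ⟨g, hg⟩ := ih (DV.ge_mono hf (by push_cast; linarith))
    have hg1 : v.ge 1 (γ g) := by
      rw [hg, map_mul, map_pow] at hf
      by_cases hg0 : γ g = 0
      · exact Or.inl hg0
      right
      have h2 := DV.ge_le hf (mul_ne_zero (pow_ne_zero _ hX0) hg0)
      rw [v.mul _ _ (pow_ne_zero _ hX0) hg0, v.o_pow _ hX0, hX] at h2
      push_cast at h2
      linarith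
    have hg2 : v.ge 1 (γ (C (g.coeff 0))) := by
      have e : γ (C (g.coeff 0)) = γ g - γ g.divX * γ X := by
        rw [← map_mul, ← map_sub]
        congr 1
        rw [eq_sub_iff_add_eq, add_comm]
        exact divX_mul_X_add g
      rw [e]
      have h3 := DV.ge_mul (hall g.divX) hX1
      rw [zero_add] at h3
      exact DV.ge_sub hg1 h3
    have hg3 : X ∣ g := X_dvd_iff.mpr (h1 _ hg2)
    rw [hg, pow_succ]
    exact mul_dvd_mul_left _ hg3

lemma poly_injective (h0 : ∀ a : R, v.ge 0 (γ (C a))) (h1 : ∀ a : R, v.ge 1 (γ (C a)) → a = 0)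
    (hX0 : γ X ≠ 0) (hX : v.o (γ X) = 1) : Function.Injective γ := by
  rw [injective_iff_map_eq_zero]
  intro f hf
  have h2 : ∀ s : ℕ, X ^ s ∣ f := fun s =>
    X_pow_dvd_of_ge v γ h0 h1 hX0 hX s f (by rw [hf]; exact DV.ge_zero _)
  ext n
  have h3 := h2 (n + 1)
  rw [X_pow_dvd_iff] at h3
  rw [h3 n (by omega), coeff_zero]

end general

section hadic

variable (L : Type*) [Field L]

/-- the order of Laurent series as a discrete valuation -/
noncomputable def hdv : DV (LaurentSeries L) where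
  o x := x.order
  mul _ _ hx hy := HahnSeries.order_mul hx hy
  add _ _ _ _ hxy := HahnSeries.min_order_le_order_add hxy

/-- the variable -/
noncomputable def hH : LaurentSeries L := HahnSeries.single 1 1

lemma hH_ne : hH L ≠ 0 := by
  rw [hH, Ne, HahnSeries.single_eq_zero_iff]
  exact one_ne_zero

lemma o_hH : (hdv L).o (hH L) = 1 := by
  change HahnSeries.order (hH L) = 1
  rw [hH, HahnSeries.order_single one_ne_zero]

/-- constants -/
noncomputable def cst : L →+* LaurentSeries L := HahnSeries.C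

lemma o_cst (x : L) : (hdv L).o (cst L x) = 0 := by
  change HahnSeries.order (HahnSeries.C x) = 0
  exact HahnSeries.order_C

lemma ge_cst (x : L) : (hdv L).ge 0 (cst L x) := by
  right
  rw [o_cst]
  norm_num

lemma cst_of_ge (x : L) (h : (hdv L).ge 1 (cst L x)) : x = 0 := by
  by_contra hx
  have h1 : cst L x ≠ 0 := by
    rw [Ne, map_eq_zero]; exact hx
  have h2 := DV.ge_le h h1
  rw [o_cst] at h2
  norm_num at h2

end hadic

/-- sums of squares -/
def gsq (m : ℕ) : ℕ := ∑ r ∈ range m, r ^ 2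

lemma gsq_cast (m : ℕ) : (gsq m : ℝ) = m * (m - 1) * (2 * m - 1) / 6 := by
  induction m with
  | zero => simp [gsq]
  | succ m ih =>
    have : gsq (m + 1) = gsq m + m ^ 2 := by rw [gsq, sum_range_succ]; rfl
    rw [this]
    push_cast
    rw [ih]
    ring

section main

variable {k : Type*} [Field k]

/-- rational functions -/
abbrev RF (k : Type*) [Field k] := FractionRing k[X]

/-- the two copies of the polynomial ring, before extension to fractions -/
noncomputable def sh0 (k : Type*) [Field k] : k[X] →+* LaurentSeries (RF k) :=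
  eval₂RingHom ((cst (RF k)).comp (algebraMap k (RF k)))
    (cst (RF k) (algebraMap k[X] (RF k) X) + hH (RF k))

lemma sh0_C (a : k) : sh0 k (C a) = cst (RF k) (algebraMap k[X] (RF k) (C a)) := by
  rw [sh0, coe_eval₂RingHom, eval₂_C, RingHom.comp_apply]
  rfl

lemma sh0_X : sh0 k X = cst (RF k) (algebraMap k[X] (RF k) X) + hH (RF k) := by
  rw [sh0, coe_eval₂RingHom, eval₂_X]

lemma ge_sh0 (f : k[X]) : (hdv (RF k)).ge 0 (sh0 k f) := by
  refine ge_poly _ _ (fun a => ?_) ?_ f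
  · rw [sh0_C]; exact ge_cst _ _
  · rw [sh0_X]
    refine DV.ge_add (ge_cst _ _) ?_
    right
    rw [o_hH]; norm_num

lemma ge_sh0_sub (f : k[X]) :
    (hdv (RF k)).ge 1 (sh0 k f - cst (RF k) (algebraMap k[X] (RF k) f)) := by
  refine ge_poly_sub (hdv (RF k)) (α := (cst (RF k)).comp (algebraMap k[X] (RF k))) (β := sh0 k)
    (fun f => ge_cst _ _) ge_sh0 (fun a => (sh0_C a).symm) ?_ f
  rw [sh0_X, RingHom.comp_apply, add_sub_cancel_left]
  right
  rw [o_hH]; norm_num

lemma sh0_injective : Function.Injective (sh0 k) := by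
  rw [injective_iff_map_eq_zero]
  intro f hf
  have h1 := ge_sh0_sub f
  rw [hf, zero_sub] at h1
  have h2 := DV.ge_neg h1
  rw [neg_neg] at h2
  have h3 := cst_of_ge _ _ h2
  exact (IsFractionRing.injective k[X] (RF k)) (by rw [h3, map_zero])

/-- the Taylor homomorphism -/
noncomputable def sh (k : Type*) [Field k] : RF k →+* LaurentSeries (RF k) :=
  IsFractionRing.lift (A := k[X]) (g := sh0 k) sh0_injective

lemma sh_alg (f : k[X]) : sh k (algebraMap k[X] (RF k) f) = sh0 k f := by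
  rw [sh, IsFractionRing.lift_algebraMap]

lemma o_sh0 (f : k[X]) (hf : f ≠ 0) : (hdv (RF k)).o (sh0 k f) = 0 := by
  have h1 : cst (RF k) (algebraMap k[X] (RF k) f) ≠ 0 := by
    rw [Ne, map_eq_zero]
    intro h
    exact hf ((IsFractionRing.injective k[X] (RF k)) (by rw [h, map_zero]))
  have h2 := DV.ord_add_of_ge h1 (ge_sh0_sub f) (by rw [o_cst]; norm_num)
  rw [add_sub_cancel, o_cst] at h2
  exact h2.2

lemma o_sh (x : RF k) (hx : x ≠ 0) : (hdv (RF k)).o (sh k x) = 0 := by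
  obtain ⟨a, b, hb, rfl⟩ := IsFractionRing.div_surjective (A := k[X]) x
  have hb0 : b ≠ 0 := nonZeroDivisors.ne_zero hb
  have ha0 : a ≠ 0 := by
    intro h
    apply hx
    rw [h, map_zero, zero_div]
  rw [map_div₀, sh_alg, sh_alg, DV.o_div, o_sh0 a ha0, o_sh0 b hb0, sub_zero]
  · rw [← sh_alg, Ne, map_eq_zero]
    intro h
    exact ha0 ((IsFractionRing.injective k[X] (RF k)) (by rw [h, map_zero]))
  · rw [← sh_alg, Ne, map_eq_zero]
    intro h
    exact hb0 ((IsFractionRing.injective k[X] (RF k)) (by rw [h, map_zero]))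

lemma ge_sh (x : RF k) : (hdv (RF k)).ge 0 (sh k x) := by
  by_cases hx : x = 0
  · rw [hx, map_zero]; exact DV.ge_zero _
  right
  rw [o_sh x hx]; norm_num

lemma ge_sh_sub (x : RF k) : (hdv (RF k)).ge 1 (sh k x - cst (RF k) x) := by
  obtain ⟨a, b, hb, rfl⟩ := IsFractionRing.div_surjective (A := k[X]) x
  have hb0 : b ≠ 0 := nonZeroDivisors.ne_zero hb
  have hb1 : sh0 k b ≠ 0 := by
    intro h
    exact hb0 (sh0_injective (by rw [h, map_zero]))
  have hb2 : cst (RF k) (algebraMap k[X] (RF k) b) ≠ 0 := by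
    rw [Ne, map_eq_zero]
    intro h
    exact hb0 ((IsFractionRing.injective k[X] (RF k)) (by rw [h, map_zero]))
  rw [map_div₀, map_div₀, sh_alg, sh_alg]
  have e : sh0 k a / sh0 k b - cst (RF k) (algebraMap k[X] (RF k) a) /
      cst (RF k) (algebraMap k[X] (RF k) b) =
      ((sh0 k a - cst (RF k) (algebraMap k[X] (RF k) a)) * cst (RF k) (algebraMap k[X] (RF k) b) -
      cst (RF k) (algebraMap k[X] (RF k) a) * (sh0 k b - cst (RF k) (algebraMap k[X] (RF k) b))) *
      ((sh0 k b)⁻¹ * (cst (RF k) (algebraMap k[X] (RF k) b))⁻¹) := by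
    field_simp
    ring
  rw [e]
  have h1 := DV.ge_mul (ge_sh0_sub a) (ge_cst (RF k) (algebraMap k[X] (RF k) b))
  have h2 := DV.ge_mul (ge_cst (RF k) (algebraMap k[X] (RF k) a)) (ge_sh0_sub b)
  rw [add_zero] at h1
  rw [zero_add] at h2
  have h3 := DV.ge_mul (DV.ge_inv (c := 0) hb1 (by rw [o_sh0 b hb0]; norm_num))
    (DV.ge_inv (c := 0) hb2 (by rw [o_cst]; norm_num))
  have h4 := DV.ge_mul (DV.ge_sub h1 h2) h3
  refine DV.ge_mono h4 ?_
  norm_num

open Kronecker in
/-- determinants of products -/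
lemma det_factor {F : Type*} [Field F] (m : ℕ) (r s x y : Fin m × Fin m → F)
    (p q : Fin m → Fin m → F) :
    (Matrix.of fun j (ab : Fin m × Fin m) => (r j * ∑ t : Fin m, p ab.1 t * x j ^ (t : ℕ)) *
        (s j * ∑ t : Fin m, q ab.2 t * y j ^ (t : ℕ))).det =
      (∏ j, (r j * s j)) *
      ((Matrix.of fun j (ab : Fin m × Fin m) => x j ^ (ab.1 : ℕ) * y j ^ (ab.2 : ℕ)).det *
      ((Matrix.of p) ⊗ₖ (Matrix.of q)).det) := by
  rw [← Matrix.det_transpose ((Matrix.of p) ⊗ₖ (Matrix.of q)), ← Matrix.det_mul,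
    ← Matrix.det_mul_column]
  congr 1
  ext j ab
  rw [Matrix.of_apply, Matrix.of_apply, Matrix.mul_apply, Fintype.sum_prod_type]
  have e : (∑ t : Fin m, p ab.1 t * x j ^ (t : ℕ)) * (∑ t : Fin m, q ab.2 t * y j ^ (t : ℕ)) =
      ∑ t : Fin m, ∑ t' : Fin m, (p ab.1 t * x j ^ (t : ℕ)) * (q ab.2 t' * y j ^ (t' : ℕ)) :=
    sum_mul_sum _ _ _ _
  calc r j * (∑ t : Fin m, p ab.1 t * x j ^ (t : ℕ)) * (s j * ∑ t : Fin m, q ab.2 t * y j ^ (t : ℕ))
      = (r j * s j) * ((∑ t : Fin m, p ab.1 t * x j ^ (t : ℕ)) *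
          (∑ t : Fin m, q ab.2 t * y j ^ (t : ℕ))) := by ring
    _ = _ := by
      rw [e]
      congr 1
      refine sum_congr rfl fun t _ => sum_congr rfl fun t' _ => ?_
      rw [Matrix.transpose_apply, Matrix.kroneckerMap_apply, Matrix.of_apply, Matrix.of_apply,
        Matrix.of_apply]
      ring

lemma ge_prod' {F : Type*} [Field F] {v : DV F} {ι : Type*} (s : Finset ι) (f : ι → F)
    (h : ∀ i ∈ s, v.ge 0 (f i)) : v.ge 0 (∏ i ∈ s, f i) := by
  classical
  induction s using Finset.induction_on with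
  | empty => rw [prod_empty]; exact DV.ge_one
  | insert a s ha ih =>
    rw [prod_insert ha]
    have := DV.ge_mul (h a (mem_insert_self a s)) (ih fun i hi => h i (mem_insert_of_mem hi))
    simpa using this

open Kronecker in
/-- the H-adic gain -/
lemma ge_hadic (m : ℕ) (ρ x : Fin m × Fin m → RF k) (p : Fin m → Fin m → RF k) :
    (hdv (RF k)).ge (gsq m) (Matrix.of fun j (ab : Fin m × Fin m) =>
      cst (RF k) (ρ j * ∑ t : Fin m, p ab.1 t * x j ^ (t : ℕ)) *
        sh k (ρ j * ∑ t : Fin m, p ab.2 t * x j ^ (t : ℕ))).det := by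
  have e : (Matrix.of fun j (ab : Fin m × Fin m) =>
      cst (RF k) (ρ j * ∑ t : Fin m, p ab.1 t * x j ^ (t : ℕ)) *
        sh k (ρ j * ∑ t : Fin m, p ab.2 t * x j ^ (t : ℕ))) =
      (Matrix.of fun j (ab : Fin m × Fin m) =>
        (cst (RF k) (ρ j) * ∑ t : Fin m, cst (RF k) (p ab.1 t) * cst (RF k) (x j) ^ (t : ℕ)) *
        (sh k (ρ j) * ∑ t : Fin m, sh k (p ab.2 t) * sh k (x j) ^ (t : ℕ))) := by
    ext j ab
    simp only [Matrix.of_apply, map_mul, map_sum, map_pow]
  rw [e, det_factor m (fun j => cst (RF k) (ρ j)) (fun j => sh k (ρ j)) (fun j => cst (RF k) (x j))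
    (fun j => sh k (x j)) (fun a t => cst (RF k) (p a t)) (fun a t => sh k (p a t))]
  have h1 := Helper11.PS.det_gain (hdv (RF k)) m (fun j => cst (RF k) (x j)) (fun j => sh k (x j))
    (fun j => ge_cst _ _) (fun j => ge_sh _) (fun j => ge_sh_sub _)
  rw [← gsq_cast] at h1
  have h2 : (hdv (RF k)).ge 0 ((Matrix.of fun a t => cst (RF k) (p a t)) ⊗ₖ
      (Matrix.of fun a t => sh k (p a t))).det := by
    have := ge_det (v := hdv (RF k)) ((Matrix.of fun a t => cst (RF k) (p a t)) ⊗ₖ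
      (Matrix.of fun a t => sh k (p a t))) (fun _ => 0) fun i j => by
        rw [Matrix.kroneckerMap_apply]
        simpa using DV.ge_mul (ge_cst (RF k) (p i.1 j.1)) (ge_sh (p i.2 j.2))
    simpa using this
  have h3 : (hdv (RF k)).ge 0 (∏ j, (cst (RF k) (ρ j) * sh k (ρ j))) := by
    refine ge_prod' _ _ fun j _ => ?_
    simpa using DV.ge_mul (ge_cst (RF k) (ρ j)) (ge_sh (ρ j))
  have h4 := DV.ge_mul h3 (DV.ge_mul h1 h2)
  rwa [zero_add, add_zero] at h4

/-- the Taylor homomorphism on polynomials -/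
noncomputable def tay (k : Type*) [Field k] : k[X] →+* k[X][X] :=
  eval₂RingHom ((C : k[X] →+* k[X][X]).comp C) (C X + X)

lemma tay_C (a : k) : tay k (C a) = C (C a) := by
  rw [tay, coe_eval₂RingHom, eval₂_C, RingHom.comp_apply]

lemma tay_X : tay k X = C X + X := by
  rw [tay, coe_eval₂RingHom, eval₂_X]

/-- the comparison map -/
noncomputable def cmp (k : Type*) [Field k] : k[X][X] →+* LaurentSeries (RF k) :=
  eval₂RingHom ((cst (RF k)).comp (algebraMap k[X] (RF k))) (hH (RF k))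

lemma cmp_C (u : k[X]) : cmp k (C u) = cst (RF k) (algebraMap k[X] (RF k) u) := by
  rw [cmp, coe_eval₂RingHom, eval₂_C, RingHom.comp_apply]

lemma cmp_tay (u : k[X]) : cmp k (tay k u) = sh k (algebraMap k[X] (RF k) u) := by
  rw [sh_alg]
  have : (cmp k).comp (tay k) = sh0 k := by
    apply Polynomial.ringHom_ext
    · intro a
      rw [sh0_C, RingHom.comp_apply, tay, coe_eval₂RingHom, eval₂_C, RingHom.comp_apply, cmp_C]
    · rw [sh0_X, RingHom.comp_apply, tay, coe_eval₂RingHom, eval₂_X, map_add, cmp_C, cmp,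
        coe_eval₂RingHom, eval₂_X]
  rw [← this, RingHom.comp_apply]

lemma X_pow_dvd_of_ge_cmp (s : ℕ) (f : k[X][X]) (h : (hdv (RF k)).ge s (cmp k f)) : X ^ s ∣ f := by
  refine X_pow_dvd_of_ge (hdv (RF k)) (cmp k) (fun a => ?_) (fun a ha => ?_) ?_ ?_ s f h
  · rw [cmp_C]; exact ge_cst _ _
  · rw [cmp_C] at ha
    exact (IsFractionRing.injective k[X] (RF k)) (by rw [cst_of_ge _ _ ha, map_zero])
  · rw [cmp, coe_eval₂RingHom, eval₂_X]; exact hH_ne _
  · rw [cmp, coe_eval₂RingHom, eval₂_X]; exact o_hH _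

/-- **the local gain lemma, polynomial version** -/
theorem lg_poly {E : Type*} [Field E] (ι₀ : k →+* E) (w : DV E) (hι : ∀ c : k, w.ge 0 (ι₀ c))
    {τ τ' : E} (hτ : w.ge 0 τ) {c : ℝ} (hc0 : 0 ≤ c) (hττ : w.ge c (τ' - τ)) (m : ℕ)
    (U : Fin m → Fin m × Fin m → k[X]) (ρ x : Fin m × Fin m → RF k) (p : Fin m → Fin m → RF k)
    (hU : ∀ a j, algebraMap k[X] (RF k) (U a j) = ρ j * ∑ t : Fin m, p a t * x j ^ (t : ℕ)) :
    w.ge (c * gsq m) (Matrix.of fun j (ab : Fin m × Fin m) =>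
      (U ab.1 j).eval₂ ι₀ τ * (U ab.2 j).eval₂ ι₀ τ').det := by
  set A : Matrix (Fin m × Fin m) (Fin m × Fin m) k[X][X] :=
    Matrix.of fun j (ab : Fin m × Fin m) => C (U ab.1 j) * tay k (U ab.2 j) with hA
  have h1 : (hdv (RF k)).ge (gsq m) (cmp k A.det) := by
    rw [RingHom.map_det]
    have e : (cmp k).mapMatrix A = Matrix.of fun j (ab : Fin m × Fin m) =>
      cst (RF k) (ρ j * ∑ t : Fin m, p ab.1 t * x j ^ (t : ℕ)) *
        sh k (ρ j * ∑ t : Fin m, p ab.2 t * x j ^ (t : ℕ)) := by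
      ext j ab
      rw [RingHom.mapMatrix_apply, Matrix.map_apply, hA, Matrix.of_apply, Matrix.of_apply, map_mul,
        cmp_C, cmp_tay, hU, hU]
    rw [e]
    exact ge_hadic m ρ x p
  obtain ⟨Q, hQ⟩ := X_pow_dvd_of_ge_cmp _ _ h1
  -- specialisation
  set ν : k[X][X] →+* E := eval₂RingHom (eval₂RingHom ι₀ τ) (τ' - τ) with hν
  have hνC : ∀ u : k[X], ν (C u) = u.eval₂ ι₀ τ := fun u => by
    rw [hν, coe_eval₂RingHom, eval₂_C, coe_eval₂RingHom]
  have hνT : ∀ u : k[X], ν (tay k u) = u.eval₂ ι₀ τ' := by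
    intro u
    have : ν.comp (tay k) = eval₂RingHom ι₀ τ' := by
      apply Polynomial.ringHom_ext
      · intro a
        rw [RingHom.comp_apply, tay_C, hνC, eval₂_C, coe_eval₂RingHom, eval₂_C]
      · rw [RingHom.comp_apply, tay_X, map_add, hνC, eval₂_X, hν,
          coe_eval₂RingHom, eval₂_X, coe_eval₂RingHom, eval₂_X]
        ring
    rw [← RingHom.comp_apply, this, coe_eval₂RingHom]
  have e2 : (Matrix.of fun j (ab : Fin m × Fin m) =>
      (U ab.1 j).eval₂ ι₀ τ * (U ab.2 j).eval₂ ι₀ τ').det = ν A.det := by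
    rw [RingHom.map_det]
    congr 1
    ext j ab
    rw [RingHom.mapMatrix_apply, Matrix.map_apply, hA, Matrix.of_apply, Matrix.of_apply, map_mul,
      hνC, hνT]
  rw [e2, hQ, map_mul, map_pow]
  have e3 : ν X = τ' - τ := by rw [hν, coe_eval₂RingHom, eval₂_X]
  have h3 : w.ge 0 (ν Q) := by
    refine ge_poly w ν (fun a => ?_) ?_ Q
    · rw [hνC, ← coe_eval₂RingHom]
      refine ge_poly w _ (fun b => ?_) ?_ a
      · rw [coe_eval₂RingHom, eval₂_C]; exact hι b
      · rw [coe_eval₂RingHom, eval₂_X]; exact hτ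
    · rw [e3]; exact DV.ge_mono hττ hc0
  have h4 := DV.ge_mul (DV.ge_pow hττ (gsq m)) h3
  rw [e3]
  refine DV.ge_mono h4 (le_of_eq ?_)
  ring

end main

end Pool.Agent.Helper37.PT
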