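import Pool.Agent.Helper37.PT.Apx
import Pool.Agent.Helper98.PT.Win

/-!
# Plan T, module T-LG: all fixed places at once
-/

set_option autoImplicit false

open Finset Polynomial

namespace Pool.Agent.Helper37.PT

open Pool.Agent.Helper33 Pool.Agent.Helper33.UB Pool.Agent.Helper51.RatTree Pool.Agent.Helper55.RD
  Pool.Agent.Helper93.RatODE Pool.Agent.Helper45.FR Pool.Agent.Helper33.PS Pool.Agent.Helper33.PT
  Pool.Agent.Helper98.PS Pool.Agent.Helper98.PT

section algebra

variable {E : Type*} [Field E]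

/-- vanishing minors give a relation -/
lemma rel_of_minors {A B A' B' : E[X]} {d k n : ℕ} (hd : 2 ≤ d) (hAB : IsRat A B d)
    (hAB' : IsRat A' B' d) {x y : ℕ → E} (hx : Orb A B x n) (hy : Orb A' B' y n) (M : ℕ)
    (hM : M + k ≤ n + 2)
    (hminor : ∀ φ : Fin (d ^ k) × Fin (d ^ k) → ℕ, (∀ i, φ i < M) →
      (Matrix.of fun i c => rw2 x y d k (φ i) c).det = 0) :
    ∃ p : Polynomial (Polynomial E), p ≠ 0 ∧ p.natDegree < d ^ k ∧
      (∀ i, (p.coeff i).natDegree < d ^ k) ∧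
      ∀ j < M, (p.eval (C (y j))).eval (x j) = 0 := by
  classical
  have hMpos : 0 < d ^ k := by positivity
  obtain ⟨coef, hne, hker⟩ := exists_ker M (fun j c => rw2 x y d k j c) hminor
  set p : Polynomial (Polynomial E) := ∑ c : Fin (d ^ k) × Fin (d ^ k),
    C (C (coef c) * SP A B d k (finFunctionFinEquiv.symm c.1)) *
      (SP A' B' d k (finFunctionFinEquiv.symm c.2)).map C with hp
  have hcoeff : ∀ i, p.coeff i = ∑ c : Fin (d ^ k) × Fin (d ^ k),
      (C (coef c) * SP A B d k (finFunctionFinEquiv.symm c.1)) *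
        C ((SP A' B' d k (finFunctionFinEquiv.symm c.2)).coeff i) := by
    intro i
    rw [hp, finsetSum_coeff]
    refine sum_congr rfl fun c _ => ?_
    rw [coeff_C_mul, coeff_map]
  refine ⟨p, ?_, ?_, ?_, ?_⟩
  · intro hp0
    apply hne
    refine Matrix.eq_zero_of_vecMul_eq_zero
      (M := Matrix.kroneckerMap (fun a b => a * b) (CM A B d k) (CM A' B' d k)) ?_ ?_
    · rw [Matrix.det_kronecker]
      exact mul_ne_zero (pow_ne_zero _ (det_CM_ne_zero hd hAB))
        (pow_ne_zero _ (det_CM_ne_zero hd hAB'))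
    · funext ⟨a, b⟩
      have h1 : (p.coeff (b : ℕ)).coeff (a : ℕ) = 0 := by rw [hp0]; simp
      rw [hcoeff, finsetSum_coeff] at h1
      rw [Pi.zero_apply, ← h1, Matrix.vecMul, dotProduct]
      refine sum_congr rfl fun c _ => ?_
      rw [coeff_mul_C, coeff_C_mul, Matrix.kroneckerMap_apply, CM, CM, Matrix.of_apply,
        Matrix.of_apply, mul_assoc]
  · have h1 : p.natDegree ≤ d ^ k - 1 := by
      rw [hp]
      refine natDegree_sum_le_of_forall_le _ _ fun c _ => ?_
      refine (natDegree_C_mul_le _ _).trans (natDegree_map_le.trans ?_)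
      have := natDegree_SP_lt (A := A') (B := B') (d := d) (k := k) (by omega)
        (finFunctionFinEquiv.symm c.2)
      omega
    omega
  · intro i
    have h1 : (p.coeff i).natDegree ≤ d ^ k - 1 := by
      rw [hcoeff]
      refine natDegree_sum_le_of_forall_le _ _ fun c _ => ?_
      refine (natDegree_mul_C_le _ _).trans ((natDegree_C_mul_le _ _).trans ?_)
      have := natDegree_SP_lt (A := A) (B := B) (d := d) (k := k) (by omega)
        (finFunctionFinEquiv.symm c.1)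
      omega
    omega
  · intro j hj
    have h1 := hker j hj
    have h2 : (p.eval (C (y j))).eval (x j) = ∑ c : Fin (d ^ k) × Fin (d ^ k),
        coef c * ((SP A B d k (finFunctionFinEquiv.symm c.1)).eval (x j) *
          (SP A' B' d k (finFunctionFinEquiv.symm c.2)).eval (y j)) := by
      rw [hp, eval_finsetSum, eval_finsetSum]
      refine sum_congr rfl fun c _ => ?_
      rw [eval_mul, eval_C, eval_map_apply, eval_mul, eval_C, eval_mul, eval_C]
      ring
    rw [h2]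
    have h3 : ∑ c : Fin (d ^ k) × Fin (d ^ k),
        coef c * ((SP A B d k (finFunctionFinEquiv.symm c.1)).eval (x j) *
          (SP A' B' d k (finFunctionFinEquiv.symm c.2)).eval (y j)) =
        (rowf A B d k (x j) * rowf A' B' d k (y j)) *
          ∑ c : Fin (d ^ k) × Fin (d ^ k), coef c * rw2 x y d k j c := by
      rw [mul_sum]
      refine sum_congr rfl fun c _ => ?_
      rw [← rw2_eval hAB hAB' hx hy j (by omega) c]
      ring
    rw [h3, h1, mul_zero]

end algebra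

section localgain

variable {k₀ K E V W : Type*} [Field k₀] [Field K] [Field E] [Algebra k₀ K] [Algebra k₀ E]
  [Algebra K E] [IsScalarTower k₀ K E] {P : PSys k₀ K V} {Q : PSys k₀ E W} {n : ℕ}

lemma neg_conj (gs : GalW P Q n) {σ : E ≃ₐ[k₀] E} (hσ : σ ∈ gs.G) {w : W} (hw : gs.act σ w = w)
    (y : E) : neg (Q.pl w) (σ y) = neg (Q.pl w) y := by
  by_cases hy : y = 0
  · rw [hy, map_zero]
  · rw [neg_of_ne _ hy, neg_of_ne _ (by rw [Ne, map_eq_zero_iff σ σ.injective]; exact hy)]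
    have := gs.act_spec σ hσ w y
    rw [hw] at this
    rw [this]

/-- gain at a fixed place -/
lemma local_gain_w (hP : ∀ v, ResK k₀ (P.pl v)) (hQ : ∀ w, ResK k₀ (Q.pl w)) (gs : GalW P Q n)
    {σ : E ≃ₐ[k₀] E} (hσ : σ ∈ gs.G) {w : W} (hw : gs.act σ w = w)
    (hu : ∃ y : K, y ≠ 0 ∧ (P.pl (gs.res w)).o y = 1) {F G : K[X]} {d k N : ℕ} (hd : 1 ≤ d)
    (hFG : IsRat F G d) {z : ℕ → K} (hz : Orb F G z N) (φi : Fin (d ^ k) × Fin (d ^ k) → ℕ)
    (hφi : ∀ i, φi i + k ≤ N + 1) :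
    (Q.pl w).ge (((gs.wild σ w + gs.ram w : ℕ) : ℝ) * gsq (d ^ k) -
        ((d - 1 : ℕ) : ℝ) * ∑ i, ∑ t : Fin k, ((neg (Q.pl w) (algebraMap K E (z (φi i + t))) : ℝ) +
          neg (Q.pl w) (σ (algebraMap K E (z (φi i + t))))))
      (Matrix.of fun i c => rw2 (fun j => algebraMap K E (z j)) (fun j => σ (algebraMap K E (z j)))
        d k (φi i) c).det := by
  classical
  obtain ⟨π, hπ0, hπ⟩ := hu
  set φ : K →+* E := algebraMap K E with hφ
  set ψ : K →+* E := (σ : E →+* E).comp (algebraMap K E) with hψ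
  have hφk : ∀ c : k₀, φ (algebraMap k₀ K c) = algebraMap k₀ E c := fun c => by
    rw [hφ, ← IsScalarTower.algebraMap_apply]
  have hψk : ∀ c : k₀, ψ (algebraMap k₀ K c) = algebraMap k₀ E c := fun c => by
    change σ (algebraMap K E (algebraMap k₀ K c)) = _
    rw [← IsScalarTower.algebraMap_apply, AlgEquiv.commutes]
  -- the difference of the uniformisers
  have hc : (Q.pl w).ge ((gs.wild σ w + gs.ram w : ℕ) : ℝ) (ψ π - φ π) := by
    have o1 : (Q.pl w).o (φ π) = gs.ram w := by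
      rw [hφ, gs.ram_spec w π hπ0, hπ, mul_one]
    have hφ0 : φ π ≠ 0 := by rw [Ne, map_eq_zero]; exact hπ0
    by_cases h1 : 1 ≤ gs.wild σ w
    · have h2 := gs.wild_spec σ hσ w hw h1 π hπ0
      have e : ψ π - φ π = (σ (algebraMap K E π) / algebraMap K E π - 1) * φ π := by
        rw [sub_mul, one_mul, div_mul_cancel₀ _ hφ0]
        rfl
      rw [e]
      refine DV.ge_mono (DV.ge_mul h2 (DV.ge_self (v := Q.pl w) (φ π))) (le_of_eq ?_)
      rw [o1]
      push_cast
      ring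
    · have h0 : gs.wild σ w = 0 := by omega
      have o2 : (Q.pl w).o (ψ π) = gs.ram w := by
        have := (vhomConjW gs hσ hw).spec π hπ0
        rw [hπ, mul_one] at this
        exact this
      rw [h0, zero_add]
      refine DV.ge_sub (Or.inr ?_) (Or.inr ?_)
      · rw [o2]; norm_num
      · rw [o1]; norm_num
  -- the data
  set ρ : Fin (d ^ k) × Fin (d ^ k) → K := fun i => (rowf F G d k (z (φi i)))⁻¹ with hρ
  have hg : ∀ a i, ρ i * ∑ t : Fin (d ^ k), CM F G d k a t * z (φi i) ^ (t : ℕ) =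
      ∏ t : Fin k, z (φi i + t) ^ ((finFunctionFinEquiv.symm a : Fin k → Fin d) t : ℕ) := by
    intro a i
    rw [← SP_eval_sum hd, SP_eval_orb hFG.dA hFG.dB hz _ (hφi i), ← mul_assoc, hρ,
      inv_mul_cancel₀ (rowf_ne_zero hFG hz _ (hφi i)), one_mul]
  set B : Fin (d ^ k) × Fin (d ^ k) → ℕ := fun i =>
    (d - 1) * ∑ t : Fin k, (neg (P.pl (gs.res w)) (z (φi i + t))).toNat with hB
  have hnegc : ∀ y : K, ((neg (P.pl (gs.res w)) y).toNat : ℝ) = neg (P.pl (gs.res w)) y := by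
    intro y
    have h1 := Helper33.PS.neg_nonneg (P.pl (gs.res w)) y
    have h2 : ((neg (P.pl (gs.res w)) y).toNat : ℤ) = neg (P.pl (gs.res w)) y :=
      Int.toNat_of_nonneg h1
    exact_mod_cast h2
  have hBge : ∀ a i, (P.pl (gs.res w)).ge (-(B i : ℝ))
      (ρ i * ∑ t : Fin (d ^ k), CM F G d k a t * z (φi i) ^ (t : ℕ)) := by
    intro a i
    rw [hg]
    have h1 := ge_prod (v := P.pl (gs.res w)) univ
      (fun t : Fin k => z (φi i + t) ^ ((finFunctionFinEquiv.symm a : Fin k → Fin d) t : ℕ))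
      (fun t => -(((d - 1 : ℕ) : ℝ) * neg (P.pl (gs.res w)) (z (φi i + t)))) (fun t _ =>
        ge_neg_pow _ _ (by
          have := ((finFunctionFinEquiv.symm a : Fin k → Fin d) t).2
          omega))
    refine DV.ge_mono h1 (le_of_eq ?_)
    rw [hB]
    push_cast
    rw [mul_sum, ← sum_neg_distrib]
    refine sum_congr rfl fun t _ => ?_
    rw [hnegc]
  have h1 := lg (hP (gs.res w)) (hQ w) hφk hψk (vhomMapW gs w) (vhomConjW gs hσ hw) rfl hπ0 hπ
    (Nat.cast_nonneg _) hc (d ^ k) ρ (fun i => z (φi i)) (CM F G d k) B hBge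
  have e1 : (Matrix.of fun i c => rw2 (fun j => algebraMap K E (z j))
      (fun j => σ (algebraMap K E (z j))) d k (φi i) c) =
      (Matrix.of fun j (ab : Fin (d ^ k) × Fin (d ^ k)) =>
      φ (ρ j * ∑ t : Fin (d ^ k), CM F G d k ab.1 t * z (φi j) ^ (t : ℕ)) *
        ψ (ρ j * ∑ t : Fin (d ^ k), CM F G d k ab.2 t * z (φi j) ^ (t : ℕ))) := by
    ext i c
    rw [Matrix.of_apply, Matrix.of_apply, hg, hg, rw2, map_prod, map_prod]
    simp only [map_pow]
    rfl
  rw [e1]
  refine DV.ge_mono h1 (le_of_eq ?_)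
  congr 1
  have e2 : ∀ y : K, (neg (Q.pl w) (algebraMap K E y) : ℝ) =
      gs.ram w * neg (P.pl (gs.res w)) y := by
    intro y
    have := neg_map (toGalSys gs) w y
    exact_mod_cast this
  have e3 : ∀ y : K, (neg (Q.pl w) (σ (algebraMap K E y)) : ℝ) =
      gs.ram w * neg (P.pl (gs.res w)) y := by
    intro y
    rw [neg_conj gs hσ hw, e2]
  rw [mul_sum, mul_sum]
  refine sum_congr rfl fun i _ => ?_
  rw [hB]
  push_cast
  rw [mul_sum, mul_sum, mul_sum]
  refine sum_congr rfl fun t _ => ?_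
  have e4 : (vhomMapW gs w).r = gs.ram w := rfl
  rw [e2, e3, hnegc, e4]
  ring

/-- the global inequality -/
lemma global_bound3 (hP : ∀ v, ResK k₀ (P.pl v)) (hQ : ∀ w, ResK k₀ (Q.pl w)) (gs : GalW P Q n)
    {σ : E ≃ₐ[k₀] E} (hσ : σ ∈ gs.G) (S : Finset W) (hS : ∀ w ∈ S, gs.act σ w = w ∧
      ∃ y : K, y ≠ 0 ∧ (P.pl (gs.res w)).o y = 1) {F G : K[X]} {d k N : ℕ} (hd : 1 ≤ d)
    (hFG : IsRat F G d) {z : ℕ → K} (hz : Orb F G z N) (φi : Fin (d ^ k) × Fin (d ^ k) → ℕ)
    (hφi : ∀ i, φi i + k ≤ N + 1)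
    (hD : (Matrix.of fun i c => rw2 (fun j => algebraMap K E (z j))
      (fun j => σ (algebraMap K E (z j))) d k (φi i) c).det ≠ 0) :
    (∑ w ∈ S, (gs.wild σ w + gs.ram w : ℝ)) * gsq (d ^ k) ≤
      ((d - 1 : ℕ) : ℝ) * ∑ i, ∑ t : Fin k, ((ht Q (algebraMap K E (z (φi i + t))) : ℝ) +
          ht Q (σ (algebraMap K E (z (φi i + t))))) := by
  classical
  set D := (Matrix.of fun i c => rw2 (fun j => algebraMap K E (z j))
      (fun j => σ (algebraMap K E (z j))) d k (φi i) c).det with hDdef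
  set x : ℕ → E := fun j => algebraMap K E (z j) with hx
  set y : ℕ → E := fun j => σ (algebraMap K E (z j)) with hy
  have hsum := Q.sum_ord D hD
  set T : Finset W := S ∪ (Q.ord_finite D hD).toFinset ∪
    (univ.biUnion fun i : Fin (d ^ k) × Fin (d ^ k) => univ.biUnion fun t : Fin k =>
      (finite_neg Q (x (φi i + t))).toFinset ∪ (finite_neg Q (y (φi i + t))).toFinset) with hT
  have hTD : Function.support (fun w => (Q.pl w).o D) ⊆ (T : Set W) := by
    intro v hv
    rw [hT]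
    simp only [coe_union, Set.mem_union, mem_coe, Set.Finite.mem_toFinset]
    exact Or.inl (Or.inr hv)
  have hTx : ∀ i (t : Fin k), Function.support (fun w => neg (Q.pl w) (x (φi i + t))) ⊆
      (T : Set W) := by
    intro i t v hv
    rw [hT, mem_coe, mem_union]
    right
    rw [mem_biUnion]
    refine ⟨i, mem_univ _, ?_⟩
    rw [mem_biUnion]
    exact ⟨t, mem_univ _, mem_union_left _ (by rw [Set.Finite.mem_toFinset]; exact hv)⟩
  have hTy : ∀ i (t : Fin k), Function.support (fun w => neg (Q.pl w) (y (φi i + t))) ⊆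
      (T : Set W) := by
    intro i t v hv
    rw [hT, mem_coe, mem_union]
    right
    rw [mem_biUnion]
    refine ⟨i, mem_univ _, ?_⟩
    rw [mem_biUnion]
    exact ⟨t, mem_univ _, mem_union_right _ (by rw [Set.Finite.mem_toFinset]; exact hv)⟩
  rw [finsum_eq_sum_of_support_subset _ hTD] at hsum
  have hST : S ⊆ T := fun v hv => by
    rw [hT, mem_union, mem_union]
    exact Or.inl (Or.inl hv)
  have hpt : ∀ w ∈ T, (if w ∈ S then (gs.wild σ w + gs.ram w : ℝ) * gsq (d ^ k) else 0) -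
      ((d - 1 : ℕ) : ℝ) * ∑ i, ∑ t : Fin k,
        ((neg (Q.pl w) (x (φi i + t)) : ℝ) + (neg (Q.pl w) (y (φi i + t)) : ℝ)) ≤
        ((Q.pl w).o D : ℝ) := by
    intro w _
    split_ifs with hv
    · have h1 := DV.ge_le (local_gain_w hP hQ gs hσ (hS w hv).1 (hS w hv).2 hd hFG hz φi hφi) hD
      push_cast at h1
      exact h1
    · have h1 := DV.ge_le (ge_det_rw2 (Q.pl w) x y d k φi) hD
      have h2 : (∑ i, ∑ t : Fin k, -(((d - 1 : ℕ) : ℝ) *
          ((neg (Q.pl w) (x (φi i + t)) : ℝ) + (neg (Q.pl w) (y (φi i + t)) : ℝ)))) =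
          0 - ((d - 1 : ℕ) : ℝ) * ∑ i, ∑ t : Fin k,
          ((neg (Q.pl w) (x (φi i + t)) : ℝ) + (neg (Q.pl w) (y (φi i + t)) : ℝ)) := by
        rw [zero_sub, mul_sum, ← sum_neg_distrib]
        refine sum_congr rfl fun i _ => ?_
        rw [mul_sum, ← sum_neg_distrib]
      rw [← h2]
      exact h1
  have h3 := sum_le_sum hpt
  have hsum' : ∑ w ∈ T, ((Q.pl w).o D : ℝ) = 0 := by exact_mod_cast hsum
  rw [hsum', sum_sub_distrib, ← sum_filter, filter_mem_eq_inter, inter_eq_right.mpr hST, ← sum_mul,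
    ← mul_sum, sum_comm] at h3
  have h4 : ∑ i, ∑ t : Fin k, ((ht Q (x (φi i + t)) : ℝ) + (ht Q (y (φi i + t)) : ℝ)) =
      ∑ i, ∑ w ∈ T, ∑ t : Fin k,
        ((neg (Q.pl w) (x (φi i + t)) : ℝ) + (neg (Q.pl w) (y (φi i + t)) : ℝ)) := by
    refine sum_congr rfl fun i _ => ?_
    rw [sum_comm]
    refine sum_congr rfl fun t _ => ?_
    rw [ht, finsum_eq_sum_of_support_subset _ (hTx i t), ht,
      finsum_eq_sum_of_support_subset _ (hTy i t), sum_add_distrib]
    push_cast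
    rfl
  rw [h4]
  linarith

end localgain

/-- **T-LG**: all fixed places at once -/
theorem pair_bound' (d n : ℕ) (hd : 2 ≤ d) (κ : ℝ) (hκ : 0 < κ) : ∃ m : ℕ,
    ∀ {k K E V W : Type} [Field k] [IsAlgClosed k] [Field K] [Field E] [Algebra k K] [Algebra k E]
    [Algebra K E] [IsScalarTower k K E] [DecidableEq K] (P : PSys k K V) (Q : PSys k E W)
    (_ : ∀ v, ResK k (P.pl v)) (_ : ∀ w, ResK k (Q.pl w))
    (gs : GalW P Q n) (F G : K[X]) (_ : IsRat F G d)
    (x : ℕ → K) (N : ℕ) (_ : RatOrbit F G x N) (c : GConst) (_ : c.C1 = 2) (M : ℝ)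
    (I : GInst P c N M) (_ : I.x = x)
    (σ : E ≃ₐ[k] E) (_ : σ ∈ gs.G) (a w : ℕ) (_ : a + w + m ≤ N)
    (_ : ∀ p : Polynomial (Polynomial E), p ≠ 0 → p.natDegree < m → (∀ i, (p.coeff i).natDegree < m) →
      ∃ j, a ≤ j ∧ j ≤ a + w ∧
        (p.eval (C (σ (algebraMap K E (x j))))).eval (algebraMap K E (x j)) ≠ 0)
    (S : Finset W) (_ : ∀ w ∈ S, gs.act σ w = w ∧ ∃ y : K, y ≠ 0 ∧ (P.pl (gs.res w)).o y = 1),
    (∑ w ∈ S, (gs.wild σ w + gs.ram w) : ℝ) ≤ κ * I.h := by
  have hd' : (1 : ℝ) ≤ ((d - 1 : ℕ) : ℝ) := by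
    have : 1 ≤ d - 1 := by omega
    exact_mod_cast this
  obtain ⟨k, hk⟩ := exists_pow_ge d hd (128 * ((d - 1 : ℕ) : ℝ) * n / κ) 2
  set m : ℝ := ((d ^ k : ℕ) : ℝ) with hm
  have hmk : 128 * ((d - 1 : ℕ) : ℝ) * n / κ * k + 2 ≤ m := by
    rw [hm]; push_cast; exact_mod_cast hk
  have hk0 : (0 : ℝ) ≤ k := Nat.cast_nonneg k
  have hm2 : 2 ≤ m := by
    have : 0 ≤ 128 * ((d - 1 : ℕ) : ℝ) * n / κ * k := by positivity
    linarith
  have hm2' : 2 ≤ d ^ k := by
    rw [hm] at hm2; exact_mod_cast hm2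
  have hkm : k ≤ d ^ k := (Nat.lt_pow_self (by omega)).le
  refine ⟨d ^ k, ?_⟩
  intro k₀ K E V W _ _ _ _ _ _ _ _ _ P Q hP hQ gs F G hFG x N hx c hc M I hI σ hσ a w haw hrel S hS
  subst hI
  have hconst := fun v (c : k₀) (hc : c ≠ 0) => (hP v).const c hc
  set h := I.h with hh
  have hh0 : 0 ≤ h := I.h_nonneg
  -- coordinates
  obtain ⟨F', G', z, a₁, b₁, e₁, f₁, hdet, hden, hzx, hFG', hzN, hcα, hcβ, hcγ, -, -, hht⟩ :=
    Pool.Agent.Helper35.PS.exists_coord P hP hFG hx ({0, 1, 2} : Finset ℕ) (α := 0) (β := 1) (γ := 2)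
      (by simp) (by simp) (by simp) (by omega) (by omega) (by omega)
      (by
        intro j hj
        simp only [mem_insert, mem_singleton] at hj
        omega) ∅ (by
        intro v hv
        exact absurd hv (notMem_empty v))
  -- heights
  have hheight : ∀ j ≤ N, (ht P (z j) : ℝ) ≤ 8 * h := by
    intro j hj
    by_cases hjβ : j = 1
    · obtain ⟨t, ht'⟩ := hcβ
      rw [hjβ, ← ht', ht_const P (fun v c hc => hconst v c hc)]
      push_cast
      positivity
    · have hne : I.x j ≠ I.x 1 := fun e =>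
        hjβ (hx.inj _ _ hj (by omega) e)
      have h1 := hht j hne
      have h2 := ht_cr_le I (α := 0) (β := 1) (γ := 2) (by omega) (by omega) (by omega) hj
        (by omega) (by omega) hjβ
      have h3 : (ht P (z j) : ℝ) ≤ ht P (cr (I.x 0) (I.x 1) (I.x 2) (I.x j)) := by exact_mod_cast h1
      have h4 : 4 * c.C1 * I.h = 8 * h := by
        rw [hc]
        ring
      rw [h4] at h2
      exact h3.trans h2
  set φ : K →+* E := algebraMap K E with hφ
  set ψ : K →+* E := (σ : E →+* E).comp (algebraMap K E) with hψ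
  have horb : Orb F' G' (fun j => z (a + j)) (w + d ^ k) :=
    ⟨fun j _ => hzN.ne _, fun j _ => hzN.step _⟩
  -- a nonvanishing minor
  have hminor : ∃ φi : Fin (d ^ k) × Fin (d ^ k) → ℕ, (∀ i, φi i < w + 1) ∧
      (Matrix.of fun i c => rw2 (fun j => φ (z (a + j))) (fun j => ψ (z (a + j))) d k
        (φi i) c).det ≠ 0 := by
    by_contra hcon
    push Not at hcon
    obtain ⟨p, hp0, hpd1, hpd2, hp⟩ := rel_of_minors hd (hFG'.map φ) (hFG'.map ψ) (horb.map φ)
      (horb.map ψ) (w + 1) (by omega) hcon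
    obtain ⟨q, hq0, hq1, hq2, hq⟩ := Helper36.PT.rel_mobius (d ^ k) (φ a₁) (φ b₁) (φ e₁) (φ f₁)
      (ψ a₁) (ψ b₁) (ψ e₁) (ψ f₁) (by
        rw [← map_mul, ← map_mul, ← map_sub, Ne, map_eq_zero]
        exact hdet) (by
        rw [← map_mul, ← map_mul, ← map_sub, Ne, map_eq_zero]
        exact hdet) p hp0 hpd1 hpd2
    obtain ⟨j, hj1, hj2, hj3⟩ := hrel q hq0 hq1 hq2
    apply hj3
    obtain ⟨t, rfl⟩ := Nat.exists_eq_add_of_le hj1
    have h1 := hp t (by omega)
    have hz1 : φ (z (a + t)) = (φ a₁ * φ (I.x (a + t)) + φ b₁) / (φ e₁ * φ (I.x (a + t)) + φ f₁) := by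
      rw [hzx, map_div₀, map_add, map_add, map_mul, map_mul]
    have hz2 : ψ (z (a + t)) = (ψ a₁ * ψ (I.x (a + t)) + ψ b₁) / (ψ e₁ * ψ (I.x (a + t)) + ψ f₁) := by
      rw [hzx, map_div₀, map_add, map_add, map_mul, map_mul]
    rw [hz1, hz2] at h1
    exact hq _ _ (by
      rw [← map_mul, ← map_add, Ne, map_eq_zero]
      exact hden _) (by
      change ψ e₁ * ψ (I.x (a + t)) + ψ f₁ ≠ 0
      rw [← map_mul, ← map_add, Ne, map_eq_zero]
      exact hden _) h1
  obtain ⟨φi, hφi, hD⟩ := hminor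
  have hglob := global_bound3 hP hQ gs hσ S hS (by omega : 1 ≤ d) hFG' horb φi
    (fun i => by have := hφi i; omega) hD
  -- heights in the extension
  have hsum : ∑ i : Fin (d ^ k) × Fin (d ^ k), ∑ t : Fin k,
      ((ht Q (algebraMap K E (z (a + (φi i + t)))) : ℝ) +
        ht Q (σ (algebraMap K E (z (a + (φi i + t)))))) ≤ m * m * (k * (16 * n * h)) := by
    calc ∑ i : Fin (d ^ k) × Fin (d ^ k), ∑ t : Fin k,
        ((ht Q (algebraMap K E (z (a + (φi i + t)))) : ℝ) +
          ht Q (σ (algebraMap K E (z (a + (φi i + t))))))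
        ≤ ∑ i : Fin (d ^ k) × Fin (d ^ k), ∑ t : Fin k, (16 * n * h) := by
          refine sum_le_sum fun i _ => sum_le_sum fun t _ => ?_
          have i1 := hφi i
          have i2 := t.2
          rw [ht_conjW gs hσ]
          have h1 : ht Q (algebraMap K E (z (a + (φi i + t)))) ≤ n * ht P (z (a + (φi i + t))) :=
            ht_map_leW gs _
          have h2 : (ht Q (algebraMap K E (z (a + (φi i + t)))) : ℝ) ≤
            n * ht P (z (a + (φi i + t))) := by exact_mod_cast h1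
          have h3 := mul_le_mul_of_nonneg_left (hheight (a + (φi i + t)) (by omega))
            (Nat.cast_nonneg (α := ℝ) n)
          linarith
      _ = m * m * (k * (16 * n * h)) := by
          simp [hm]
  set A : ℝ := ∑ w ∈ S, (gs.wild σ w + gs.ram w : ℝ) with hA
  have hA0 : 0 ≤ A := sum_nonneg fun w _ => by positivity
  have h1 : A * gsq (d ^ k) ≤ ((d - 1 : ℕ) : ℝ) * (m * m * (k * (16 * n * h))) :=
    hglob.trans (mul_le_mul_of_nonneg_left hsum (by linarith))
  rw [gsq_cast] at h1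
  have h4 : m * m * m / 8 ≤ m * (m - 1) * (2 * m - 1) / 6 := by
    have h5 : 0 ≤ m * ((m - 2) * (10 * m - 4) + 0) := by
      refine mul_nonneg (by linarith) ?_
      have : 0 ≤ (m - 2) * (10 * m - 4) := mul_nonneg (by linarith) (by linarith)
      linarith
    nlinarith
  have h5 : A * (m * m * m / 8) ≤ ((d - 1 : ℕ) : ℝ) * (m * m * (k * (16 * n * h))) :=
    (mul_le_mul_of_nonneg_left h4 hA0).trans h1
  have h6 : m * m * (A * m) ≤ m * m * (128 * ((d - 1 : ℕ) : ℝ) * n * k * h) := by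
    linarith
  have h7 := le_of_mul_le_mul_left h6 (by positivity)
  have h8 : 128 * ((d - 1 : ℕ) : ℝ) * n * k ≤ κ * m := by
    have h9 : 128 * ((d - 1 : ℕ) : ℝ) * n / κ * k ≤ m := by linarith
    calc 128 * ((d - 1 : ℕ) : ℝ) * n * k = κ * (128 * ((d - 1 : ℕ) : ℝ) * n / κ * k) := by
          field_simp
      _ ≤ κ * m := mul_le_mul_of_nonneg_left h9 hκ.le
  have h9 : A * m ≤ κ * h * m := by
    calc A * m ≤ 128 * ((d - 1 : ℕ) : ℝ) * n * k * h := h7
      _ ≤ κ * m * h := mul_le_mul_of_nonneg_right h8 hh0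
      _ = κ * h * m := by ring
  exact le_of_mul_le_mul_right h9 (by linarith)

end Pool.Agent.Helper37.PT
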